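import Pool.Agent.Lib_helper88.Waring.Neg

/-!
# Simultaneous Waring decompositions: binary forms, linear forms, pencils of quadrics (helper96)
-/

set_option autoImplicit false

open MvPolynomial Finset

namespace Pool.Agent.WarN

open Pool.Agent.Waring

namespace BinAux

/-- A univariate polynomial with many zeros. -/
lemma poly_zero {d h s q j : ℕ} (hj : j < s) (hq : s * q ≤ h) (hd : d < h + q)
    (P : Polynomial ℂ) (hP : P.natDegree ≤ d) (h0 : ∀ i < h, P.eval (i : ℂ) = 0)
    (h1 : ∀ i < h, i % s = j → P.derivative.eval (i : ℂ) = 0) : P = 0 := by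
  classical
  by_contra hne
  have hinj : Function.Injective (Nat.cast : ℕ → ℂ) := Nat.cast_injective
  let R : Finset ℂ := (Finset.range h).image (Nat.cast : ℕ → ℂ)
  have hsub : R ⊆ P.roots.toFinset := by
    intro x hx
    obtain ⟨i, hi, rfl⟩ := Finset.mem_image.1 hx
    rw [Multiset.mem_toFinset, Polynomial.mem_roots hne]
    exact h0 i (Finset.mem_range.1 hi)
  have hsum : ∑ x ∈ R, P.rootMultiplicity x ≤ d := by
    calc ∑ x ∈ R, P.rootMultiplicity x ≤ ∑ x ∈ P.roots.toFinset, P.rootMultiplicity x :=
          Finset.sum_le_sum_of_subset hsub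
      _ = ∑ x ∈ P.roots.toFinset, P.roots.count x := by
          refine Finset.sum_congr rfl fun x _ => ?_
          rw [Polynomial.count_roots]
      _ = Multiset.card P.roots := Multiset.toFinset_sum_count_eq _
      _ ≤ P.natDegree := Polynomial.card_roots' P
      _ ≤ d := hP
  rw [show R = (Finset.range h).image (Nat.cast : ℕ → ℂ) from rfl,
    Finset.sum_image fun x _ y _ hxy => hinj hxy] at hsum
  have hge : ∀ i ∈ Finset.range h, 1 + (if i % s = j then 1 else 0) ≤
      P.rootMultiplicity (i : ℂ) := by
    intro i hi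
    have hi' := Finset.mem_range.1 hi
    split_ifs with hij
    · have := (Polynomial.one_lt_rootMultiplicity_iff_isRoot hne).2 ⟨h0 i hi', h1 i hi' hij⟩
      omega
    · have := (Polynomial.rootMultiplicity_pos hne).2 (h0 i hi')
      omega
  have h3 := (Finset.sum_le_sum hge).trans hsum
  rw [Finset.sum_add_distrib, Finset.sum_const, Finset.card_range, smul_eq_mul, mul_one,
    ← Finset.card_filter] at h3
  have h4 : q ≤ ((Finset.range h).filter fun i => i % s = j).card := by
    calc q = (Finset.range q).card := (Finset.card_range q).symm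
      _ ≤ _ := by
        refine Finset.card_le_card_of_injOn (fun t => j + s * t) ?_ ?_
        · intro t ht
          have ht' := Finset.mem_range.1 ht
          refine Finset.mem_coe.2 (Finset.mem_filter.2 ⟨Finset.mem_range.2 ?_, ?_⟩)
          · have : s * (t + 1) ≤ s * q := Nat.mul_le_mul_left s ht'
            have h5 : s * (t + 1) = s * t + s := by ring
            show j + s * t < h
            omega
          · show (j + s * t) % s = j
            rw [Nat.add_mul_mod_self_left, Nat.mod_eq_of_lt hj]
        · intro t _ t' _ htt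
          have h5 : s * t = s * t' := by
            have : j + s * t = j + s * t' := htt
            omega
          exact Nat.eq_of_mul_eq_mul_left (by omega) h5
  omega

/-- to one variable -/
noncomputable def U (g : MvPolynomial (Fin 1) ℂ) : Polynomial ℂ := uniqueAlgEquiv ℂ (Fin 1) g

lemma U_eval (g : MvPolynomial (Fin 1) ℂ) (x : ℂ) : (U g).eval x = eval (fun _ => x) g := by
  unfold U
  induction g using MvPolynomial.induction_on with
  | C a => simp
  | add p q hp hq => rw [map_add, Polynomial.eval_add, hp, hq, map_add]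
  | mul_X p i hp =>
    rw [map_mul, Polynomial.eval_mul, hp, map_mul, eval_X]
    congr 1
    simp

lemma U_deriv (g : MvPolynomial (Fin 1) ℂ) : (U g).derivative = U (pderiv 0 g) := by
  unfold U
  induction g using MvPolynomial.induction_on with
  | C a => simp
  | add p q hp hq => rw [map_add, Polynomial.derivative_add, hp, hq, map_add, map_add]
  | mul_X p i hp =>
    have hi : i = 0 := Subsingleton.elim _ _
    subst hi
    rw [map_mul, Polynomial.derivative_mul, hp, Derivation.leibniz, pderiv_X_self, map_add,
      smul_eq_mul, smul_eq_mul, mul_one, map_mul]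
    simp
    ring

lemma U_zero {g : MvPolynomial (Fin 1) ℂ} (h : U g = 0) : g = 0 := by
  unfold U at h
  exact (map_eq_zero_iff _ (uniqueAlgEquiv ℂ (Fin 1)).injective).1 h

lemma U_deg (g : MvPolynomial (Fin 1) ℂ) (d : ℕ) (h : g.totalDegree ≤ d) :
    (U g).natDegree ≤ d := by
  rw [Polynomial.natDegree_le_iff_coeff_eq_zero]
  intro N hN
  unfold U
  rw [coeff_uniqueAlgEquiv]
  refine coeff_eq_zero_of_totalDegree_lt ?_
  refine lt_of_le_of_lt h ?_
  have h2 : ∑ i ∈ (Finsupp.single (default : Fin 1) N).support,
      (Finsupp.single (default : Fin 1) N) i = N := by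
    have h3 : (Finsupp.single (default : Fin 1) N).sum (fun _ e => e) = N :=
      Finsupp.sum_single_index rfl
    exact h3
  rw [h2]
  exact hN

end BinAux

open BinAux

/-- **Binary forms.** There are no exceptions. -/
theorem W_binary (d h s : ℕ) (hd : 1 ≤ d) :
    W d h 1 s ↔ min s ((1 + d).choose 1) ≤ h ∧ s * (1 + d).choose 1 ≤ h * (1 + s) := by
  refine ⟨fun H => ⟨H.bound2, H.bound1 hd⟩, fun ⟨_, h2⟩ => ?_⟩
  rw [Nat.choose_one_right] at h2
  -- the number of double points for every form
  obtain ⟨q, hq1, hq2⟩ : ∃ q, s * q ≤ h ∧ d < h + q := by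
    rcases Nat.lt_or_ge d h with h3 | h3
    · exact ⟨0, by omega, by omega⟩
    · refine ⟨d + 1 - h, ?_, by omega⟩
      obtain ⟨e, rfl⟩ := Nat.exists_eq_add_of_le h3
      have h4 : h + e + 1 - h = e + 1 := by omega
      rw [h4]
      nlinarith
  refine W_of_dual (fun i _ => (i.val : ℂ)) (fun i j => if i.val % s = j.val then 1 else 0) ?_
  intro g hg h0 h1 j
  apply U_zero
  refine poly_zero j.isLt hq1 hq2 _ (U_deg _ _ (hg j)) ?_ ?_
  · intro i hi
    rw [U_eval]
    exact h0 ⟨i, hi⟩ j
  · intro i hi hij
    rw [U_deriv, U_eval]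
    have h3 := h1 ⟨i, hi⟩ 0
    rw [Finset.sum_eq_single_of_mem j (mem_univ j)] at h3
    · simpa [hij] using h3
    · intro j' _ hj'
      have : ¬ i % s = j'.val := fun h => hj' (Fin.ext (by omega))
      simp [this]

end Pool.Agent.WarN
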