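import Pool.Agent.Lib_helper88.Waring.Neg

/-!
# Simultaneous Waring decompositions: linear forms (helper96)
-/

set_option autoImplicit false

open MvPolynomial Finset

namespace Pool.Agent.WarN

open Pool.Agent.Waring

/-- a polynomial of degree at most one without constant term and with vanishing gradient at `0` -/
lemma lin_zero {n : ℕ} (g : MvPolynomial (Fin n) ℂ) (hg : g.totalDegree ≤ 1)
    (h0 : eval (fun _ => 0) g = 0) (h1 : ∀ k, eval (fun _ => 0) (pderiv k g) = 0) : g = 0 := by
  classical
  have e : ∀ p : MvPolynomial (Fin n) ℂ, eval (fun _ => 0) p = coeff 0 p := by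
    intro p
    have : eval (fun _ : Fin n => (0 : ℂ)) p = constantCoeff p := by
      rw [show (fun _ : Fin n => (0 : ℂ)) = 0 from rfl, eval_zero]
    rw [this, constantCoeff_eq]
  ext m
  rw [coeff_zero]
  by_contra hm
  have h2 : m.sum (fun _ e => e) ≤ 1 := (le_totalDegree (mem_support_iff.2 hm)).trans hg
  by_cases hm0 : m = 0
  · subst hm0
    apply hm
    rw [← e, h0]
  · obtain ⟨k, hk⟩ : ∃ k, m k ≠ 0 := by
      by_contra hc
      push Not at hc
      exact hm0 (Finsupp.ext hc)
    have h3 : m = Finsupp.single k 1 := by
      rw [Finsupp.sum_fintype _ _ (by simp)] at h2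
      ext l
      by_cases hl : l = k
      · subst hl
        rw [Finsupp.single_eq_same]
        have : m l ≤ ∑ i, m i := Finset.single_le_sum (fun i _ => Nat.zero_le _) (mem_univ l)
        omega
      · rw [Finsupp.single_eq_of_ne hl]
        have h4 : m k + m l ≤ ∑ i, m i := by
          rw [← Finset.sum_pair (Ne.symm hl)]
          exact Finset.sum_le_sum_of_subset (Finset.subset_univ _)
        omega
    have h4 := h1 k
    rw [e] at h4
    apply hm
    rw [h3]
    have h5 : coeff 0 (pderiv k g) = coeff (Finsupp.single k 1) g := by
      have h6 := g.as_sum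
      conv_lhs => rw [h6]
      rw [map_sum, coeff_sum]
      simp only [pderiv_monomial, coeff_monomial]
      rw [Finset.sum_eq_single (Finsupp.single k 1)]
      · simp
      · intro b _ hb
        by_cases hb1 : b k = 0
        · simp [hb1]
        · rw [if_neg]
          intro h7
          apply hb
          have h8 : b = b - Finsupp.single k 1 + Finsupp.single k 1 := by
            ext l
            simp only [Finsupp.add_apply, Finsupp.tsub_apply]
            by_cases hl : l = k
            · subst hl
              rw [Finsupp.single_eq_same]
              omega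
            · rw [Finsupp.single_eq_of_ne hl]
              simp
          rw [h8, h7, zero_add]
      · intro h7
        rw [notMem_support_iff] at h7
        simp [h7]
    rw [← h5, h4]

/-- **Linear forms**, at most `h` of them. -/
theorem W_linear (h n s : ℕ) (hs : s ≤ h) : W 1 h n s := by
  classical
  refine W_of_dual (fun _ _ => 0) (fun i j => if i.val = j.val then 1 else 0) ?_
  intro g hg h0 h1 j
  have hj : j.val < h := lt_of_lt_of_le j.isLt hs
  refine lin_zero (g j) (hg j) (h0 ⟨j.val, hj⟩ j) fun k => ?_
  have h3 := h1 ⟨j.val, hj⟩ k
  rw [Finset.sum_eq_single_of_mem j (mem_univ j)] at h3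
  · simpa using h3
  · intro j' _ hj'
    have : ¬ j.val = j'.val := fun h => hj' (Fin.ext h.symm)
    simp [this]

end Pool.Agent.WarN
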