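import Pool.Agent.Lib_helper88.Waring.Neg

/-!
# Simultaneous Waring decompositions: the exceptional nets of quadrics (helper96)

For odd `n` three general quadratic forms in `n + 1` variables are not linear combinations of the
squares of `h` linear forms, if `2 h < 3 (n + 1)`. The skew matrix
`(0 A B; -A 0 C; -B -C 0)` of size `3 (n + 1)` has rank at most `2 h` for such forms.
-/

set_option autoImplicit false

open MvPolynomial Finset

namespace Pool.Agent.WarN

open Pool.Agent.Waring

namespace Exc2Aux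

/-- the skew `3 × 3` matrix of a vector -/
def K {R : Type} [Ring R] (c : Fin 3 → R) : Fin 3 → Fin 3 → R :=
  ![![0, c 0, c 1], ![-c 0, 0, c 2], ![-c 1, -c 2, 0]]

lemma K_sum {ι : Type} [Fintype ι] (c : Fin 3 → ι → ℂ) (m : ι → ℂ) (a b : Fin 3) :
    K (fun e => ∑ i, c e i * m i) a b = ∑ i, K (fun e => c e i) a b * m i := by
  fin_cases a <;> fin_cases b <;> simp [K, Finset.sum_neg_distrib]

lemma K_factor (c : Fin 3 → ℂ) : ∃ (A : Fin 3 → Fin 2 → ℂ) (B : Fin 2 → Fin 3 → ℂ),
    ∀ a b, K c a b = ∑ k, A a k * B k b := by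
  by_cases h : c 0 = 0
  · refine ⟨![![c 1, 0], ![c 2, 0], ![0, 1]], ![![0, 0, 1], ![-c 1, -c 2, 0]], fun a b => ?_⟩
    fin_cases a <;> fin_cases b <;> simp [K, h, Fin.sum_univ_two]
  · refine ⟨![![1, 0], ![0, 1], ![-(c 2 / c 0), c 1 / c 0]], ![![0, c 0, c 1], ![-c 0, 0, c 2]],
      fun a b => ?_⟩
    fin_cases a <;> fin_cases b <;> (simp [K, Fin.sum_univ_two]; try (field_simp; try ring))

/-- `x_k x_l` -/
noncomputable def ee {n : ℕ} (x y : Fin (n + 1)) : Fin (n + 1) →₀ ℕ :=
  Finsupp.single x 1 + Finsupp.single y 1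

lemma ee_mem {n : ℕ} (x y : Fin (n + 1)) :
    ee x y ∈ Finset.finsuppAntidiag (Finset.univ : Finset (Fin (n + 1))) 2 := by
  rw [mem_Mon]
  simp [ee, Finset.sum_add_distrib]

lemma prod_ee {n : ℕ} (l : Fin (n + 1) → ℂ) (x y : Fin (n + 1)) :
    ∏ k, l k ^ (ee x y) k = l x * l y := by
  have h1 : ∀ z : Fin (n + 1), ∏ k, l k ^ (Finsupp.single z 1 : Fin (n + 1) →₀ ℕ) k = l z := by
    intro z
    rw [Finset.prod_eq_single_of_mem z (mem_univ z)]
    · rw [Finsupp.single_eq_same, pow_one]
    · intro k _ hk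
      rw [Finsupp.single_eq_of_ne hk, pow_zero]
  simp only [ee, Finsupp.add_apply, pow_add, Finset.prod_mul_distrib]
  rw [h1, h1]

/-- the multinomial coefficient -/
noncomputable def mu {n : ℕ} (x y : Fin (n + 1)) : ℂ := (Nat.multinomial univ (ee x y) : ℂ)

lemma mu_ne {n : ℕ} (x y : Fin (n + 1)) : mu x y ≠ 0 := by
  unfold mu
  exact_mod_cast (Nat.multinomial_pos _ _).ne'

/-- the matrix -/
noncomputable def M (n : ℕ) : Matrix (Fin 3 × Fin (n + 1)) (Fin 3 × Fin (n + 1))
    (MvPolynomial (Fin 3 × Mon n 2) ℂ) :=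
  Matrix.of fun p q => K (fun c => C (mu p.2 q.2)⁻¹ * X (c, ⟨ee p.2 q.2, ee_mem _ _⟩)) p.1 q.1

lemma eval_M {n : ℕ} (w : Fin 3 × Mon n 2 → ℂ) : eval w (M n).det =
    (Matrix.of fun p q => K (fun c => (mu p.2 q.2)⁻¹ * w (c, ⟨ee p.2 q.2, ee_mem _ _⟩)) p.1 q.1 :
      Matrix (Fin 3 × Fin (n + 1)) (Fin 3 × Fin (n + 1)) ℂ).det := by
  rw [RingHom.map_det]
  congr 1
  ext ⟨a, x⟩ ⟨b, y⟩
  simp only [M, RingHom.mapMatrix_apply, Matrix.map_apply, Matrix.of_apply]
  fin_cases a <;> fin_cases b <;> simp [K]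

/-- the matrix of a decomposable net -/
lemma entry {n : ℕ} {ι : Type} [Fintype ι] (w : Fin 3 × Mon n 2 → ℂ) (l : ι → Fin (n + 1) → ℂ)
    (c : Fin 3 → ι → ℂ) (hlc : ∀ j (α : Mon n 2), w (j, α) =
      ∑ i, c j i * ((Nat.multinomial univ α.1 : ℂ) * ∏ k, l i k ^ α.1 k))
    (x y : Fin (n + 1)) (e : Fin 3) :
    (mu x y)⁻¹ * w (e, ⟨ee x y, ee_mem _ _⟩) = ∑ i, c e i * (l i x * l i y) := by
  rw [hlc, Finset.mul_sum]
  refine Finset.sum_congr rfl fun i _ => ?_
  have h1 := prod_ee (l i) x y
  rw [h1]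
  have h2 : (Nat.multinomial univ (ee x y) : ℂ) = mu x y := rfl
  rw [h2]
  have := mu_ne x y
  field_simp

theorem pair_sums {n : ℕ} (σ : Fin (n + 1) → Fin (n + 1)) (par : Fin (n + 1) → Prop)
    [DecidablePred par] (hσ : ∀ x, σ (σ x) = x) (hpar : ∀ x, par (σ x) ↔ ¬ par x)
    (x y : Fin (n + 1)) :
    ∑ z, (if par z then (1 : ℂ) else 0) *
      (((if x = z then 1 else 0) + (if x = σ z then 1 else 0)) *
        ((if y = z then 1 else 0) + (if y = σ z then 1 else 0))) =
      (if y = x then 1 else 0) + (if y = σ x then 1 else 0) := by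
  have hne : σ x ≠ x := fun h => by
    have := hpar x
    rw [h] at this
    tauto
  by_cases hx : par x
  · rw [Finset.sum_eq_single_of_mem x (mem_univ x)]
    · simp [hx, hne.symm]
    · intro z _ hz
      by_cases hz1 : par z
      · have h1 : x ≠ z := fun h => hz h.symm
        have h2 : x ≠ σ z := fun h => by
          rw [h] at hx
          exact (hpar z).1 hx hz1
        simp [h1, h2]
      · simp [hz1]
  · rw [Finset.sum_eq_single_of_mem (σ x) (mem_univ _)]
    · have h1 : par (σ x) := (hpar x).2 hx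
      simp [h1, hσ, hne.symm]
      ring
    · intro z _ hz
      by_cases hz1 : par z
      · have h1 : x ≠ z := fun h => hx (h ▸ hz1)
        have h2 : x ≠ σ z := fun h => hz (by rw [h, hσ])
        simp [h1, h2]
      · simp [hz1]

end Exc2Aux

open Exc2Aux

theorem M_ne {n : ℕ} (hn : Odd n) : (M n).det ≠ 0 := by
  classical
  intro h0
  -- the pairing
  obtain ⟨σ, hσd⟩ : ∃ σ : Fin (n + 1) → Fin (n + 1), ∀ x, (σ x).val =
      if x.val % 2 = 0 then x.val + 1 else x.val - 1 := by
    refine ⟨fun x => ⟨if x.val % 2 = 0 then x.val + 1 else x.val - 1, ?_⟩, fun x => rfl⟩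
    obtain ⟨k, hk⟩ := hn
    have := x.isLt
    split_ifs <;> omega
  let par : Fin (n + 1) → Prop := fun x => x.val % 2 = 0
  have hσ : ∀ x, σ (σ x) = x := by
    intro x
    apply Fin.ext
    rw [hσd, hσd]
    split_ifs <;> omega
  have hpar : ∀ x, par (σ x) ↔ ¬ par x := by
    intro x
    simp only [par]
    rw [hσd]
    split_ifs <;> omega
  let l : Fin (n + 1) ⊕ Fin (n + 1) → Fin (n + 1) → ℂ := Sum.elim
    (fun z x => if x = z then 1 else 0)
    (fun z x => (if x = z then 1 else 0) + (if x = σ z then 1 else 0))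
  let c : Fin 3 → Fin (n + 1) ⊕ Fin (n + 1) → ℂ := fun e => Sum.elim
    (fun z => if e = 0 then (if par z then 1 else 0) else if e = 2 then (if par z then 0 else 1)
      else 0)
    (fun z => if e = 1 then (if par z then 1 else 0) else 0)
  let w : Fin 3 × Mon n 2 → ℂ := fun p =>
    ∑ i, c p.1 i * ((Nat.multinomial univ p.2.1 : ℂ) * ∏ k, l i k ^ p.2.1 k)
  have hw := eval_M w
  rw [h0, map_zero] at hw
  have hent := entry w l c (fun j α => rfl)
  have hS0 : ∀ x y, ∑ i, c 0 i * (l i x * l i y) = if y = x then (if par x then 1 else 0) else 0 := by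
    intro x y
    rw [Fintype.sum_sum_type]
    simp only [c, l, Sum.elim_inl, Sum.elim_inr]
    rw [Finset.sum_eq_single_of_mem x (mem_univ x)]
    · by_cases h : y = x
      · subst h; simp
      · simp [h]
    · intro z _ hz
      simp [hz.symm]
  have hS2 : ∀ x y, ∑ i, c 2 i * (l i x * l i y) = if y = x then (if par x then 0 else 1) else 0 := by
    intro x y
    rw [Fintype.sum_sum_type]
    simp only [c, l, Sum.elim_inl, Sum.elim_inr]
    rw [Finset.sum_eq_single_of_mem x (mem_univ x)]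
    · by_cases h : y = x
      · subst h; simp
      · simp [h]
    · intro z _ hz
      simp [hz.symm]
  have hS1 : ∀ x y, ∑ i, c 1 i * (l i x * l i y) =
      (if y = x then 1 else 0) + (if y = σ x then 1 else 0) := by
    intro x y
    rw [Fintype.sum_sum_type, ← pair_sums σ par hσ hpar x y]
    simp [c, l]
  obtain ⟨u, hu0, hu⟩ := Matrix.exists_mulVec_eq_zero_iff.2 hw.symm
  apply hu0
  have hE : ∀ (a : Fin 3) (x : Fin (n + 1)), ∑ b, ∑ y, K (fun e => ∑ i, c e i * (l i x * l i y)) a b *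
      u (b, y) = 0 := by
    intro a x
    have h1 := congrFun hu (a, x)
    rw [Matrix.mulVec, dotProduct, Fintype.sum_prod_type] at h1
    simp only [Matrix.of_apply, hent, Pi.zero_apply] at h1
    exact h1
  have e0 : ∀ x, (if par x then u (1, x) else 0) + (u (2, x) + u (2, σ x)) = 0 := by
    intro x
    have h1 := hE 0 x
    simp only [Fin.sum_univ_three, K, Matrix.cons_val_zero, Matrix.cons_val_one,
      Matrix.cons_val_two, Matrix.head_cons, Matrix.tail_cons, hS0, hS1, zero_mul,
      Finset.sum_const_zero, zero_add, ite_mul, add_mul, one_mul, Finset.sum_add_distrib,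
      Finset.sum_ite_eq', mem_univ, if_true, Matrix.cons_val] at h1
    exact h1
  have e1 : ∀ x, -(if par x then u (0, x) else 0) + (if par x then 0 else u (2, x)) = 0 := by
    intro x
    have h1 := hE 1 x
    simp only [Fin.sum_univ_three, K, Matrix.cons_val_zero, Matrix.cons_val_one,
      Matrix.cons_val_two, Matrix.head_cons, Matrix.tail_cons, hS0, hS2, zero_mul, neg_mul,
      Finset.sum_const_zero, add_zero, ite_mul, one_mul, Finset.sum_neg_distrib,
      Finset.sum_ite_eq', mem_univ, if_true, Matrix.cons_val] at h1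
    exact h1
  have e2 : ∀ x, -(u (0, x) + u (0, σ x)) - (if par x then 0 else u (1, x)) = 0 := by
    intro x
    have h1 := hE 2 x
    simp only [Fin.sum_univ_three, K, Matrix.cons_val_zero, Matrix.cons_val_one,
      Matrix.cons_val_two, Matrix.head_cons, Matrix.tail_cons, hS1, hS2, zero_mul, neg_mul,
      Finset.sum_const_zero, add_zero, ite_mul, add_mul, one_mul, Finset.sum_neg_distrib,
      Finset.sum_add_distrib, Finset.sum_ite_eq', mem_univ, if_true, Matrix.cons_val] at h1
    linear_combination h1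
  have f0 : ∀ x, par x → u (0, x) = 0 := by
    intro x hx
    have := e1 x
    simpa [hx] using this
  have f2 : ∀ x, ¬ par x → u (2, x) = 0 := by
    intro x hx
    have := e1 x
    simpa [hx] using this
  have f2' : ∀ x, par x → u (2, x) = 0 := by
    intro x hx
    have h1 : ¬ par (σ x) := fun h => (hpar x).1 h hx
    have := e0 (σ x)
    rw [hσ, if_neg h1, f2 _ h1] at this
    simpa using this
  have f1 : ∀ x, par x → u (1, x) = 0 := by
    intro x hx
    have h1 : ¬ par (σ x) := fun h => (hpar x).1 h hx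
    have := e0 x
    rw [if_pos hx, f2' x hx, f2 _ h1] at this
    simpa using this
  have f0' : ∀ x, ¬ par x → u (0, x) = 0 := by
    intro x hx
    have h1 : par (σ x) := (hpar x).2 hx
    have := e2 (σ x)
    rw [if_pos h1, hσ, f0 _ h1] at this
    simpa using this
  have f1' : ∀ x, ¬ par x → u (1, x) = 0 := by
    intro x hx
    have h1 : par (σ x) := (hpar x).2 hx
    have := e2 x
    rw [if_neg hx, f0' x hx, f0 _ h1] at this
    simpa using this
  funext ⟨b, x⟩
  by_cases hx : par x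
  · fin_cases b
    · exact f0 x hx
    · exact f1 x hx
    · exact f2' x hx
  · fin_cases b
    · exact f0' x hx
    · exact f1' x hx
    · exact f2 x hx

/-- For odd `n` a general net of quadratic forms in `n + 1` variables is not in the span of
the squares of `h` linear forms if `2 h < 3 (n + 1)`. -/
theorem not_W_net {n h : ℕ} (hn : Odd n) (hh : 2 * h < 3 * (n + 1)) : ¬ W 2 h n 3 := by
  classical
  intro H
  obtain ⟨w, hw, l, c, hlc⟩ := H.exists_rep (M n).det (M_ne hn)
  rw [eval_M] at hw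
  choose A B hAB using fun i => K_factor fun e => c e i
  let P : Matrix (Fin 3 × Fin (n + 1)) (Fin h × Fin 2) ℂ := Matrix.of fun p r =>
    A r.1 p.1 r.2 * l r.1 p.2
  let Q : Matrix (Fin h × Fin 2) (Fin 3 × Fin (n + 1)) ℂ := Matrix.of fun r q =>
    B r.1 r.2 q.1 * l r.1 q.2
  have hPQ : (Matrix.of fun p q => K (fun e => (mu p.2 q.2)⁻¹ *
      w (e, ⟨ee p.2 q.2, ee_mem _ _⟩)) p.1 q.1 :
      Matrix (Fin 3 × Fin (n + 1)) (Fin 3 × Fin (n + 1)) ℂ) = P * Q := by
    ext ⟨a, x⟩ ⟨b, y⟩
    rw [Matrix.of_apply, Matrix.mul_apply]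
    have h1 : (fun e => (mu x y)⁻¹ * w (e, ⟨ee x y, ee_mem _ _⟩)) =
        fun e => ∑ i, c e i * (l i x * l i y) := by
      funext e
      exact entry w l c hlc x y e
    show K (fun e => (mu x y)⁻¹ * w (e, ⟨ee x y, ee_mem _ _⟩)) a b = _
    rw [h1, K_sum, Fintype.sum_prod_type]
    refine Finset.sum_congr rfl fun i _ => ?_
    rw [hAB, Finset.sum_mul]
    refine Finset.sum_congr rfl fun k _ => ?_
    simp only [P, Q, Matrix.of_apply]
    ring
  rw [hPQ] at hw
  have h5 : IsUnit (P * Q) := (Matrix.isUnit_iff_isUnit_det _).2 (isUnit_iff_ne_zero.2 hw)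
  have h6 := Matrix.rank_of_isUnit _ h5
  have h7 := (Matrix.rank_mul_le_left P Q).trans (Matrix.rank_le_card_width P)
  rw [h6, Fintype.card_prod, Fintype.card_prod, Fintype.card_fin, Fintype.card_fin,
    Fintype.card_fin, Fintype.card_fin] at h7
  omega

end Pool.Agent.WarN
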