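import Pool.Agent.Lib_helper88.Waring.Neg

/-!
# Simultaneous Waring decompositions: pencils of quadrics (helper96)
-/

set_option autoImplicit false

open MvPolynomial Finset

namespace Pool.Agent.WarN

open Pool.Agent.Waring

namespace PenAux

lemma eval_zero' {n : ℕ} (p : MvPolynomial (Fin n) ℂ) : eval (fun _ => 0) p = coeff 0 p := by
  have : eval (fun _ : Fin n => (0 : ℂ)) p = constantCoeff p := by
    rw [show (fun _ : Fin n => (0 : ℂ)) = 0 from rfl, eval_zero]
  rw [this, constantCoeff_eq]

/-- the value at a unit vector -/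
lemma eval_unit {n : ℕ} (k : Fin n) (D : ℕ) (p : MvPolynomial (Fin n) ℂ)
    (hp : p.totalDegree ≤ D) :
    eval (fun i => if i = k then 1 else 0) p =
      ∑ t ∈ range (D + 1), coeff (Finsupp.single k t) p := by
  classical
  rw [eval_eq']
  have h1 : ∀ m : Fin n →₀ ℕ, coeff m p * ∏ i, (if i = k then (1 : ℂ) else 0) ^ m i =
      if m = Finsupp.single k (m k) then coeff m p else 0 := by
    intro m
    split_ifs with h
    · rw [Finset.prod_eq_one, mul_one]
      intro i _
      by_cases hi : i = k
      · simp [hi]
      · rw [h, Finsupp.single_eq_of_ne hi, pow_zero]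
    · obtain ⟨i, hi⟩ : ∃ i, m i ≠ Finsupp.single k (m k) i := by
        by_contra hc
        push Not at hc
        exact h (Finsupp.ext hc)
      have hik : i ≠ k := by
        rintro rfl
        exact hi (by rw [Finsupp.single_eq_same])
      rw [Finsupp.single_eq_of_ne hik] at hi
      rw [Finset.prod_eq_zero (mem_univ i), mul_zero]
      rw [if_neg hik, zero_pow hi]
  rw [Finset.sum_congr rfl fun m _ => h1 m, ← Finset.sum_filter]
  have hinj : Function.Injective fun t : ℕ => Finsupp.single k t := Finsupp.single_injective k
  rw [← Finset.sum_image (f := fun m => coeff m p) (g := fun t : ℕ => Finsupp.single k t)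
    (s := range (D + 1)) fun a _ b _ h => hinj h]
  refine Finset.sum_subset ?_ ?_
  · intro m hm
    obtain ⟨h2, h3⟩ := Finset.mem_filter.1 hm
    refine Finset.mem_image.2 ⟨m k, ?_, h3.symm⟩
    rw [Finset.mem_range]
    have h4 : m.sum (fun _ e => e) ≤ D := (le_totalDegree h2).trans hp
    rw [Finsupp.sum_fintype _ _ (by simp)] at h4
    have : m k ≤ ∑ i, m i := Finset.single_le_sum (fun i _ => Nat.zero_le _) (mem_univ k)
    omega
  · intro m hm hm2
    obtain ⟨t, -, rfl⟩ := Finset.mem_image.1 hm
    by_contra hc
    apply hm2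
    refine Finset.mem_filter.2 ⟨mem_support_iff.2 hc, ?_⟩
    rw [Finsupp.single_eq_same]

/-- a polynomial of degree at most two whose coefficients vanish -/
lemma quad_zero {n : ℕ} (g : MvPolynomial (Fin n) ℂ) (hg : g.totalDegree ≤ 2)
    (h0 : coeff 0 g = 0) (h1 : ∀ k, coeff (Finsupp.single k 1) g = 0)
    (h2 : ∀ k l, coeff (Finsupp.single k 1 + Finsupp.single l 1) g = 0) : g = 0 := by
  classical
  ext m
  rw [coeff_zero]
  by_contra hm
  have h4 : m.sum (fun _ e => e) ≤ 2 := (le_totalDegree (mem_support_iff.2 hm)).trans hg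
  rw [Finsupp.sum_fintype _ _ (by simp)] at h4
  by_cases hm0 : m = 0
  · exact hm (hm0 ▸ h0)
  obtain ⟨k, hk⟩ : ∃ k, m k ≠ 0 := by
    by_contra hc
    push Not at hc
    exact hm0 (Finsupp.ext hc)
  obtain ⟨m', rfl⟩ : ∃ m', m = Finsupp.single k 1 + m' := by
    refine ⟨m - Finsupp.single k 1, ?_⟩
    ext l
    simp only [Finsupp.add_apply, Finsupp.tsub_apply]
    by_cases hl : l = k
    · subst hl
      rw [Finsupp.single_eq_same]
      omega
    · rw [Finsupp.single_eq_of_ne hl]
      simp
  have h5 : ∑ i, m' i ≤ 1 := by
    simp only [Finsupp.add_apply, Finset.sum_add_distrib] at h4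
    have : ∑ i, (Finsupp.single k 1 : Fin n →₀ ℕ) i = 1 := by simp
    omega
  by_cases hm1 : m' = 0
  · subst hm1
    rw [add_zero] at hm
    exact hm (h1 k)
  obtain ⟨l, hl⟩ : ∃ l, m' l ≠ 0 := by
    by_contra hc
    push Not at hc
    exact hm1 (Finsupp.ext hc)
  have h6 : m' = Finsupp.single l 1 := by
    ext i
    by_cases hi : i = l
    · subst hi
      rw [Finsupp.single_eq_same]
      have : m' i ≤ ∑ i, m' i := Finset.single_le_sum (fun i _ => Nat.zero_le _) (mem_univ i)
      omega
    · rw [Finsupp.single_eq_of_ne hi]
      have h7 : m' l + m' i ≤ ∑ i, m' i := by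
        rw [← Finset.sum_pair (Ne.symm hi)]
        exact Finset.sum_le_sum_of_subset (Finset.subset_univ _)
      omega
  subst h6
  exact hm (h2 k l)

end PenAux

open PenAux

/-- **Pencils of quadrics.** -/
theorem W_pencil (h n : ℕ) (hh : n + 1 ≤ h) : W 2 h n 2 := by
  classical
  have H : W 2 (n + 1) n 2 := by
    refine W_of_dual (fun i => Fin.cases (fun _ => 0) (fun k l => if l = k then 1 else 0) i)
      (fun i => ![1, (i.val : ℂ)]) ?_
    intro g hg h0 h1
    -- coefficients
    have c0 : ∀ j, coeff 0 (g j) = 0 := by
      intro j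
      have := h0 0 j
      rwa [Fin.cases_zero, eval_zero'] at this
    have hb0 : ∀ k, coeff (Finsupp.single k 1) (g 0) = 0 := by
      intro k
      have h2 := h1 0 k
      rw [Fin.sum_univ_two, Fin.cases_zero, eval_zero', eval_zero', coeff_pderiv,
        coeff_pderiv] at h2
      simpa using h2
    have hv : ∀ j k, coeff (Finsupp.single k 1) (g j) + coeff (Finsupp.single k 2) (g j) = 0 := by
      intro j k
      have h2 := h0 k.succ j
      rw [Fin.cases_succ, eval_unit k 2 _ (hg j), Finset.sum_range_succ, Finset.sum_range_succ,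
        Finset.sum_range_one, Finsupp.single_zero, c0] at h2
      simpa using h2
    have hd : ∀ k l, ∑ j : Fin 2, (![1, ((k.succ : Fin (n + 1)).val : ℂ)] : Fin 2 → ℂ) j *
        (coeff (Finsupp.single l 1) (g j) +
          coeff (Finsupp.single k 1 + Finsupp.single l 1) (g j) *
            ((Finsupp.single k 1 : Fin n →₀ ℕ) l + 1)) = 0 := by
      intro k l
      have h2 := h1 k.succ l
      rw [← h2]
      refine Finset.sum_congr rfl fun j _ => ?_
      congr 1
      have h3 : (pderiv l (g j)).totalDegree ≤ 1 := totalDegree_pderiv_le _ _ _ (hg j)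
      rw [Fin.cases_succ, eval_unit k 1 _ h3, Finset.sum_range_succ, Finset.sum_range_one,
        Finsupp.single_zero, coeff_pderiv, coeff_pderiv, zero_add]
      simp
    -- the coefficients of degree one
    have hb1 : ∀ k, coeff (Finsupp.single k 1) (g 1) = 0 := by
      intro k
      have h2 := hd k k
      have e1 : (Finsupp.single k 1 + Finsupp.single k 1 : Fin n →₀ ℕ) = Finsupp.single k 2 := by
        rw [← Finsupp.single_add]
      have h3 := hv 0 k
      have h4 := hv 1 k
      rw [hb0, zero_add] at h3
      rw [Fin.sum_univ_two, e1, Finsupp.single_eq_same] at h2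
      simp only [Matrix.cons_val_zero, Matrix.cons_val_one, Fin.val_succ, hb0, h3] at h2
      have h5 : coeff (Finsupp.single k 2) (g 1) = -coeff (Finsupp.single k 1) (g 1) := by
        linear_combination h4
      rw [h5] at h2
      push_cast at h2
      have h6 : ((k.val : ℂ) + 1) * coeff (Finsupp.single k 1) (g 1) = 0 := by
        linear_combination -h2
      rcases mul_eq_zero.1 h6 with h7 | h7
      · exfalso
        have : ((k.val + 1 : ℕ) : ℂ) = 0 := by exact_mod_cast h7
        exact absurd (Nat.cast_eq_zero.1 this) (by omega)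
      · exact h7
    have hb : ∀ j k, coeff (Finsupp.single k 1) (g j) = 0 := by
      intro j k
      fin_cases j
      · exact hb0 k
      · exact hb1 k
    have hq : ∀ j k, coeff (Finsupp.single k 2) (g j) = 0 := by
      intro j k
      have := hv j k
      rw [hb] at this
      simpa using this
    have hx : ∀ k l, k ≠ l → coeff (Finsupp.single k 1 + Finsupp.single l 1) (g 0) +
        ((k.val : ℂ) + 1) * coeff (Finsupp.single k 1 + Finsupp.single l 1) (g 1) = 0 := by
      intro k l hkl
      have h2 := hd k l
      rw [Fin.sum_univ_two, Finsupp.single_eq_of_ne hkl.symm] at h2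
      simp only [Matrix.cons_val_zero, Matrix.cons_val_one, Fin.val_succ, hb] at h2
      push_cast at h2
      linear_combination h2
    intro j
    refine quad_zero (g j) (hg j) (c0 j) (hb j) fun k l => ?_
    by_cases hkl : k = l
    · subst hkl
      rw [← Finsupp.single_add]
      exact hq j k
    · have h2 := hx k l hkl
      have h3 := hx l k (Ne.symm hkl)
      rw [add_comm (Finsupp.single l 1)] at h3
      have h4 : ((k.val : ℂ) - l.val) *
          coeff (Finsupp.single k 1 + Finsupp.single l 1) (g 1) = 0 := by
        linear_combination h2 - h3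
      have h5 : coeff (Finsupp.single k 1 + Finsupp.single l 1) (g 1) = 0 := by
        rcases mul_eq_zero.1 h4 with h6 | h6
        · exfalso
          apply hkl
          apply Fin.ext
          have := sub_eq_zero.1 h6
          exact_mod_cast this
        · exact h6
      have h6 : coeff (Finsupp.single k 1 + Finsupp.single l 1) (g 0) = 0 := by
        rw [h5] at h2
        simpa using h2
      fin_cases j
      · exact h6
      · exact h5
  exact H.mono hh

end Pool.Agent.WarN
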