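import Pool.Agent.Lib_helper88.Waring.Neg

/-!
# Simultaneous Waring decompositions: the exception of plane cubics (helper96)

Two general plane cubics are not linear combinations of the cubes of five linear forms: the six
partial derivatives of two such cubics are linearly dependent.
-/

set_option autoImplicit false

open MvPolynomial Finset

namespace Pool.Agent.WarN

open Pool.Agent.Waring

/-- exponents of degree two in three variables: `2 e_k` and the sum of the other two `e_l` -/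
def b2 (p : Fin 2 × Fin 3) : Fin 3 → ℕ := fun l =>
  if p.1 = 0 then (if l = p.2 then 2 else 0) else (if l = p.2 then 0 else 1)

/-- `b2 p + e_k` -/
noncomputable def b3 (p : Fin 2 × Fin 3) (k : Fin 3) : Fin 3 →₀ ℕ :=
  Finsupp.equivFunOnFinite.symm fun l => b2 p l + if l = k then 1 else 0

lemma sum_b2 (p : Fin 2 × Fin 3) : ∑ l, b2 p l = 2 := by
  revert p; decide

lemma b3_mem (p : Fin 2 × Fin 3) (k : Fin 3) :
    b3 p k ∈ Finset.finsuppAntidiag (Finset.univ : Finset (Fin (2 + 1))) 3 := by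
  rw [mem_Mon]
  have h : ∀ l, b3 p k l = b2 p l + if l = k then 1 else 0 := fun l => rfl
  rw [Finset.sum_congr rfl fun l _ => h l, Finset.sum_add_distrib]
  have := sum_b2 p
  rw [show (∑ l : Fin (2 + 1), b2 p l) = 2 from this]
  simp

lemma mult (p : Fin 2 × Fin 3) (k : Fin 3) :
    (b2 p k + 1) * Nat.multinomial univ (b3 p k) = 3 * Nat.multinomial univ (b2 p) := by
  have h : (b3 p k : Fin 3 → ℕ) = fun l => b2 p l + if l = k then 1 else 0 := rfl
  rw [h]
  revert p k; decide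

theorem not_W_3522 : ¬ W 3 5 2 2 := by
  classical
  intro H
  let M : Matrix (Fin 2 × Fin 3) (Fin 2 × Fin 3) (MvPolynomial (Fin 2 × Mon 2 3) ℂ) :=
    Matrix.of fun q p => C ((b2 p q.2 + 1 : ℕ) : ℂ) * X (q.1, ⟨b3 p q.2, b3_mem p q.2⟩)
  have hM : ∀ w, eval w M.det = (Matrix.of fun q p =>
      ((b2 p q.2 + 1 : ℕ) : ℂ) * w (q.1, ⟨b3 p q.2, b3_mem p q.2⟩) :
      Matrix (Fin 2 × Fin 3) (Fin 2 × Fin 3) ℂ).det := by
    intro w
    rw [RingHom.map_det]
    congr 1
    ext a b
    simp [M]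
  have hM0 : M.det ≠ 0 := by
    intro h0
    -- `x³ + y³ + z³`, `x y z`
    have h3 := hM fun a => if (a.1 = 0 ∧ ∃ k, a.2.1 k = 3) ∨ (a.1 = 1 ∧ ∀ k, a.2.1 k = 1)
      then 1 else 0
    rw [h0, map_zero] at h3
    have h4 : (Matrix.of fun q p => ((b2 p q.2 + 1 : ℕ) : ℂ) *
        (if ((q.1 = 0 ∧ ∃ k, b3 p q.2 k = 3) ∨ (q.1 = 1 ∧ ∀ k, b3 p q.2 k = 1))
          then (1 : ℂ) else 0) : Matrix (Fin 2 × Fin 3) (Fin 2 × Fin 3) ℂ) =
        Matrix.diagonal fun q => if q.1 = 0 then 3 else 1 := by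
      ext q p
      rw [Matrix.of_apply, Matrix.diagonal_apply]
      have hk : ∀ l, b3 p q.2 l = b2 p l + if l = q.2 then 1 else 0 := fun l => rfl
      simp only [hk]
      have key : ∀ q p : Fin 2 × Fin 3, ((q.1 = 0 ∧ ∃ k, (b2 p k + if k = q.2 then 1 else 0) = 3) ∨
        (q.1 = 1 ∧ ∀ k, (b2 p k + if k = q.2 then 1 else 0) = 1)) ↔ q = p := by decide
      have key2 : ∀ q : Fin 2 × Fin 3, b2 q q.2 + 1 = if q.1 = 0 then 3 else 1 := by decide
      by_cases hqp : q = p
      · rw [if_pos ((key q p).2 hqp), if_pos hqp, ← hqp, key2 q]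
        split_ifs <;> simp
      · rw [if_neg (fun h => hqp ((key q p).1 h)), if_neg hqp, mul_zero]
    have h5 : (Matrix.diagonal fun q : Fin 2 × Fin 3 => if q.1 = 0 then (3 : ℂ) else 1).det = 0 := by
      rw [← h4]; exact h3.symm
    rw [Matrix.det_diagonal, Finset.prod_eq_zero_iff] at h5
    obtain ⟨q, -, hq⟩ := h5
    split_ifs at hq <;> norm_num at hq
  obtain ⟨w, hw, l, c, hlc⟩ := H.exists_rep M.det hM0
  rw [hM] at hw
  let A : Matrix (Fin 2 × Fin 3) (Fin 5) ℂ := Matrix.of fun q i => 3 * c q.1 i * l i q.2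
  let B : Matrix (Fin 5) (Fin 2 × Fin 3) ℂ := Matrix.of fun i p =>
    (Nat.multinomial univ (b2 p) : ℂ) * ∏ k, l i k ^ b2 p k
  have hAB : (Matrix.of fun q p =>
      ((b2 p q.2 + 1 : ℕ) : ℂ) * w (q.1, ⟨b3 p q.2, b3_mem p q.2⟩) :
      Matrix (Fin 2 × Fin 3) (Fin 2 × Fin 3) ℂ) = A * B := by
    ext q p
    rw [Matrix.of_apply, hlc, Matrix.mul_apply, Finset.mul_sum]
    refine Finset.sum_congr rfl fun i _ => ?_
    simp only [A, B, Matrix.of_apply]
    have e1 : ∏ k, l i k ^ (b3 p q.2) k = (∏ k, l i k ^ b2 p k) * l i q.2 := by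
      have hk : ∀ k, l i k ^ (b3 p q.2) k = l i k ^ b2 p k * (if k = q.2 then l i k else 1) := by
        intro k
        have : (b3 p q.2) k = b2 p k + if k = q.2 then 1 else 0 := rfl
        rw [this, pow_add]
        split_ifs <;> simp
      rw [Finset.prod_congr rfl fun k _ => hk k, Finset.prod_mul_distrib]
      congr 1
      rw [Finset.prod_ite_eq' univ q.2]
      simp
    have e2 : ((b2 p q.2 + 1 : ℕ) : ℂ) * (Nat.multinomial univ (b3 p q.2) : ℂ) =
        3 * (Nat.multinomial univ (b2 p) : ℂ) := by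
      have := mult p q.2
      exact_mod_cast this
    rw [e1]
    calc _ = c q.1 i * (((b2 p q.2 + 1 : ℕ) : ℂ) * (Nat.multinomial univ (b3 p q.2) : ℂ)) *
          ((∏ k, l i k ^ b2 p k) * l i q.2) := by ring
      _ = _ := by rw [e2]; ring
  rw [hAB] at hw
  have h5 : IsUnit (A * B) := (Matrix.isUnit_iff_isUnit_det _).2 (isUnit_iff_ne_zero.2 hw)
  have h6 := Matrix.rank_of_isUnit _ h5
  have h7 := (Matrix.rank_mul_le_left A B).trans (Matrix.rank_le_card_width A)
  rw [h6, Fintype.card_prod, Fintype.card_fin, Fintype.card_fin, Fintype.card_fin] at h7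
  omega

end Pool.Agent.WarN
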